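import Mathlib
import Pool.Agent.Helper48.HJI.Defs
import Pool.Agent.Helper48.HJI.NonLinear

set_option autoImplicit false

open MvPowerSeries Pool.Agent.Helper48.HJI

/-- The group `G` of all ring automorphisms `g` of the power series ring `𝔽₂[[x, y]]` such that
`g x` and `g y` agree with `x` and `y` in all degrees at most one is residually finite,
hereditarily just infinite, admits a self-similar action, and is not linear over any field. -/
theorem Pool.Agent.Results.MP_8eb9f8_al.NonLinearExample.result.{u} :
    ∃ G : Subgroup (RingAut (MvPowerSeries (Fin 2) (ZMod 2))),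
      (∀ g : RingAut (MvPowerSeries (Fin 2) (ZMod 2)), g ∈ G ↔
        ∀ i : Fin 2, ∀ d : Fin 2 →₀ ℕ, d.degree ≤ 1 →
          coeff d (g (X i)) = coeff d (X i : MvPowerSeries (Fin 2) (ZMod 2))) ∧
      IsResiduallyFinite G ∧ HereditarilyJustInfinite G ∧ AdmitsSelfSimilarAction G ∧
        ¬ IsLinearGroup.{u} G := by
  refine ⟨Gam 1, ?_, residuallyFinite_G1, hji_G1, selfSimilar_G1, ?_⟩
  · intro g
    constructor
    · intro hg i d hd
      have h1 := gen_of_mem_Gam hg i d (by push_cast; omega)
      rw [map_sub, sub_eq_zero] at h1
      exact h1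
    · intro h
      apply mem_Gam_of_gen le_rfl
      intro i d hd
      rw [map_sub, sub_eq_zero]
      exact h i d (by push_cast at hd; omega)
  · rintro ⟨K, hK, n, f, _, hf⟩
    exact nonlinear_G1 n f hf
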